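import Pool.Agent.Lib_helper54.RS.Joined

/-!
# MP_ef641d_nt: Satake classes of finite order for `GL_3`

Let `π^τ`, `τ : K → ℂ`, be the conjugates of an automorphic representation of Artin type of `GL_3`
over `ℚ`, given by bounded eigenforms of level `N`, with Hecke traces `a p ∈ O_K`.  Since `π^τ_p`
is unitary with central character `χ τ p`, its Satake parameters are the roots of
`X^3 - τ(a p) X^2 + χ τ p * conj τ(a p) * X - χ τ p`.  On a set of primes of lower density at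
least `1/3` (`2/5` if `√5 ∉ K`, `3/4` if all `a p` are rational integers) they are roots of unity
of bounded order, as they are at all primes if there is a Galois representation of finite image
attached to `π`.
The analytic input, the Rankin-Selberg bound for `GL_3`, is proved in `Lib_helper54/RS`.
-/

set_option autoImplicit false

namespace Pool.Agent.Results.MP_ef641d_nt.SatakeGL3

open Pool.Agent.RS.Main

theorem result {N : ℕ} (hN : N ≠ 0) (K : Type) [Field K] [NumberField K]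
    (c : K →+* K) (hc : ∀ (τ : K →+* ℂ) (x : K), τ (c x) = (starRingEnd ℂ) (τ x))
    (a : ℕ → K) (ha : ∀ p : ℕ, p.Prime → ¬ p ∣ N → IsIntegral ℤ (a p))
    (χ : (K →+* ℂ) → DirichletCharacter ℂ N)
    (φ : (K →+* ℂ) → Matrix (Fin 3) (Fin 3) ℝ → ℂ)
    (hφ : ∀ τ : K →+* ℂ, BoundedEigenform 3 N (χ τ) (φ τ) (fun p => τ (a p))) :
    ∃ M : ℕ, 0 < M ∧ ∀ δ : ℝ, (δ = 1 / 3 ∨ (δ = 2 / 5 ∧ ¬ ∃ x : K, x ^ 2 = 5) ∨
        (δ = 3 / 4 ∧ ∀ p : ℕ, p.Prime → ¬ p ∣ N → ∃ m : ℤ, a p = (m : K))) →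
      DirichletGE {p | ¬ p ∣ N ∧ ∀ (τ : K →+* ℂ) (z : ℂ),
        z ^ 3 - τ (a p) * z ^ 2 + χ τ p * (starRingEnd ℂ) (τ (a p)) * z - χ τ p = 0 →
          z ^ M = 1} δ := by
  have h := Pool.Agent.RS.joined (n := 3) (by norm_num) hN K c hc a ha χ φ hφ
  obtain ⟨M, hM, hall⟩ := h.2.2.2.2.1 rfl
  refine ⟨M, hM, fun δ hδ => ?_⟩
  have h1 : DirichletGE {p | ¬ p ∣ N ∧ (a p = 0 ∨ ∃ m : ℕ, 0 < m ∧ a p ^ m = 1)} δ := by
    rcases hδ with hδ | ⟨hδ, h5⟩ | ⟨hδ, hZ⟩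
    · rw [hδ]; exact h.2.1
    · rw [hδ]; exact h.2.2.1 h5
    · rw [hδ]
      obtain ⟨C, hC⟩ := (h.2.2.2.2.2 hZ).2
      refine ⟨C, fun s hs => (hC s hs).trans ?_⟩
      apply Pool.Agent.RS.primeSum_mono hs
      rintro p - ⟨hpN, h0 | h0 | h0⟩
      · exact ⟨hpN, Or.inl h0⟩
      · exact ⟨hpN, Or.inr ⟨1, one_pos, by rw [h0, one_pow]⟩⟩
      · exact ⟨hpN, Or.inr ⟨2, two_pos, by rw [h0]; norm_num⟩⟩
  obtain ⟨C, hC⟩ := h1
  refine ⟨C, fun s hs => (hC s hs).trans ?_⟩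
  apply Pool.Agent.RS.primeSum_mono hs
  rintro p hp ⟨hpN, hg⟩
  exact ⟨hpN, hall p hp hpN hg⟩

end Pool.Agent.Results.MP_ef641d_nt.SatakeGL3
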